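import Pool.Agent.R128.AI.Final

set_option autoImplicit false

/-!
# Almost intersecting uniform hypergraphs (MP_67e379_co)

For every `k ≥ 2` there is `s₁` such that for all `s > s₁` every finite family `F` of `k`-element
sets in which every member is disjoint from at least one and at most `s` members has at most
`(s + 1) * C(2k - 2, k - 1)` members.
-/

open Finset

namespace Pool.Agent.Results.MP_67e379_co.AlmostIntersecting

theorem result : ∀ k : ℕ, 2 ≤ k → ∃ s₁ : ℕ, ∀ s : ℕ, s₁ < s →
    ∀ (α : Type) [DecidableEq α] (F : Finset (Finset α)), (∀ A ∈ F, A.card = k) →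
      (∀ A ∈ F, 1 ≤ (F.filter (fun B => Disjoint A B)).card ∧
        (F.filter (fun B => Disjoint A B)).card ≤ s) →
      F.card ≤ (s + 1) * (2 * k - 2).choose (k - 1) := by
  intro k hk
  obtain ⟨a, rfl⟩ : ∃ a, k = a + 1 := ⟨k - 1, by omega⟩
  obtain ⟨s1, hs1⟩ := R128.AI.main_thm a (by omega)
  refine ⟨s1, fun s hs α _ F hF hd => ?_⟩
  have h1 := hs1 s hs α F ?_
  · have e1 : 2 * (a + 1) - 2 = 2 * a := by omega
    have e2 : a + 1 - 1 = a := by omega
    rw [e1, e2]
    exact h1
  · refine ⟨hF, fun A hA => ?_⟩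
    have h2 := hd A hA
    constructor
    · refine le_trans h2.1 (le_of_eq ?_)
      congr
    · refine le_trans (le_of_eq ?_) h2.2
      congr

end Pool.Agent.Results.MP_67e379_co.AlmostIntersecting

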